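import Pool.Agent.Helper28.LV.StL

/-!
# Project TH, low levels: uniqueness of bihomogeneous functions on matrices with even lower left entry

`RgU` with the additional condition `2 ∣ γ`. For a matrix `g` of determinant one with odd `γ` the matrices
`n'(t) g` (`α` odd) and `n'(t) n(t) g` (`α` even), `t = p^n` odd, have an even lower left entry and tend to `g`
for `n → ∞`; `F` is continuous.
-/

set_option autoImplicit false

namespace Pool.Agent.Helper96.THV

open Pool.Agent.Helper28.LV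

/-- A bihomogeneous function is continuous. -/
theorem rg_cont {p : ℕ} [Fact p.Prime] {a : ℕ} {F : ℚ_[p] → ℚ_[p] → ℚ_[p] → ℚ_[p] → ℚ_[p]}
    (hF : Rg a F) {A B C D : ℚ_[p] → ℚ_[p]} (hA : Continuous A) (hB : Continuous B)
    (hC : Continuous C) (hD : Continuous D) : Continuous fun t => F (A t) (B t) (C t) (D t) := by
  obtain ⟨P, hP⟩ := hF
  simp only [hP]
  refine continuous_finsetSum _ fun i _ => continuous_finsetSum _ fun j _ => ?_
  fun_prop

/-- `RgU` for matrices with an even lower left entry. -/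
theorem rgU2 (hU : RgU) (p : ℕ) [hp : Fact p.Prime] (hp2 : p ≠ 2) (a N : ℕ)
    (F : ℚ_[p] → ℚ_[p] → ℚ_[p] → ℚ_[p] → ℚ_[p]) (hF : Rg a F)
    (h0 : ∀ α β γ δ : ℤ, α * δ - β * γ = 1 → (2 : ℤ) ∣ γ → (p : ℤ) ^ N ∣ α - 1 →
      (p : ℤ) ^ N ∣ β → (p : ℤ) ^ N ∣ γ → (p : ℤ) ^ N ∣ δ - 1 → F α β γ δ = 0) :
    ∀ α β γ δ : ℚ_[p], F α β γ δ = 0 := by
  have hodd : Odd (p : ℤ) := by
    have h1 : Odd p := hp.out.odd_of_ne_two hp2
    exact_mod_cast h1
  have hpo : ∀ n : ℕ, Odd ((p : ℤ) ^ n) := fun n => hodd.pow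
  have hlim : Filter.Tendsto (fun n : ℕ => ((p : ℚ_[p]) ^ (n + N))) Filter.atTop (nhds 0) := by
    have h1 : Filter.Tendsto (fun n : ℕ => ((p : ℚ_[p]) ^ n)) Filter.atTop (nhds 0) :=
      tendsto_pow_atTop_nhds_zero_of_norm_lt_one Padic.norm_p_lt_one
    exact (Filter.tendsto_add_atTop_iff_nat N).2 h1
  -- one limit
  have key : ∀ A B C D : ℚ_[p] → ℚ_[p], Continuous A → Continuous B → Continuous C → Continuous D →
      (∀ n : ℕ, F (A ((p : ℚ_[p]) ^ (n + N))) (B ((p : ℚ_[p]) ^ (n + N)))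
        (C ((p : ℚ_[p]) ^ (n + N))) (D ((p : ℚ_[p]) ^ (n + N))) = 0) →
      F (A 0) (B 0) (C 0) (D 0) = 0 := by
    intro A B C D hA hB hC hD h
    have hc := rg_cont hF hA hB hC hD
    have h1 : Filter.Tendsto (fun n : ℕ => F (A ((p : ℚ_[p]) ^ (n + N))) (B ((p : ℚ_[p]) ^ (n + N)))
        (C ((p : ℚ_[p]) ^ (n + N))) (D ((p : ℚ_[p]) ^ (n + N)))) Filter.atTop
        (nhds (F (A 0) (B 0) (C 0) (D 0))) := (hc.tendsto 0).comp hlim
    simp only [h] at h1
    exact (tendsto_nhds_unique h1 tendsto_const_nhds)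
  refine hU p hp a N F hF fun α β γ δ hd hα hβ hγ hδ => ?_
  rcases Int.even_or_odd γ with he | ho
  · exact h0 α β γ δ hd he.two_dvd hα hβ hγ hδ
  rcases Int.even_or_odd α with hae | hao
  · -- `α` even
    have h1 := key (fun t => α + t * γ) (fun t => β + t * δ) (fun t => γ + t * (α + t * γ))
      (fun t => δ + t * (β + t * δ)) (by fun_prop) (by fun_prop) (by fun_prop) (by fun_prop)
      (fun n => by
        have hq : (p : ℤ) ^ N ∣ (p : ℤ) ^ (n + N) := pow_dvd_pow _ (Nat.le_add_left _ _)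
        have h2 := h0 (α + (p : ℤ) ^ (n + N) * γ) (β + (p : ℤ) ^ (n + N) * δ)
          (γ + (p : ℤ) ^ (n + N) * (α + (p : ℤ) ^ (n + N) * γ))
          (δ + (p : ℤ) ^ (n + N) * (β + (p : ℤ) ^ (n + N) * δ))
          (by linear_combination hd)
          (by
            have h3 : Odd (α + (p : ℤ) ^ (n + N) * γ) := hae.add_odd ((hpo _).mul ho)
            exact (ho.add_odd ((hpo _).mul h3)).two_dvd)
          (by
            have e : α + (p : ℤ) ^ (n + N) * γ - 1 = (α - 1) + (p : ℤ) ^ (n + N) * γ := by ring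
            rw [e]; exact dvd_add hα (hq.mul_right _))
          (dvd_add hβ (hq.mul_right _)) (dvd_add hγ (hq.mul_right _))
          (by
            have e : δ + (p : ℤ) ^ (n + N) * (β + (p : ℤ) ^ (n + N) * δ) - 1 =
              (δ - 1) + (p : ℤ) ^ (n + N) * (β + (p : ℤ) ^ (n + N) * δ) := by ring
            rw [e]; exact dvd_add hδ (hq.mul_right _))
        push_cast at h2
        exact h2)
    simpa using h1
  · -- `α` odd
    have h1 := key (fun _ => α) (fun _ => β) (fun t => γ + t * α)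
      (fun t => δ + t * β) (by fun_prop) (by fun_prop) (by fun_prop) (by fun_prop)
      (fun n => by
        have hq : (p : ℤ) ^ N ∣ (p : ℤ) ^ (n + N) := pow_dvd_pow _ (Nat.le_add_left _ _)
        have h2 := h0 α β (γ + (p : ℤ) ^ (n + N) * α) (δ + (p : ℤ) ^ (n + N) * β)
          (by linear_combination hd)
          ((ho.add_odd ((hpo _).mul hao)).two_dvd)
          hα hβ (dvd_add hγ (hq.mul_right _))
          (by
            have e : δ + (p : ℤ) ^ (n + N) * β - 1 = (δ - 1) + (p : ℤ) ^ (n + N) * β := by ring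
            rw [e]; exact dvd_add hδ (hq.mul_right _))
        push_cast at h2
        exact h2)
    simpa using h1

end Pool.Agent.Helper96.THV
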